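import Pool.Agent.H68.RT.LowP

/-!
# Beilinson's conjecture for `K_j^{(j)}`, one `j` and one dimension at a time, and sections of the cones
over `Gr(2, n)`

For a Chow motive `N` over `ℚ` and integers `j ≥ 2` and `n` let `A^n(N) = K_j(N)^{(n)}_ℤ ⊗ ℝ`, the
integral part (Scholl, functorial in Chow motives) of the motivic cohomology
`H^{2n-j}_M(N, ℚ(n)) = K_j(N)^{(n)}`, and `B^n(N) = H^{2n-j}_D(N_ℝ, ℝ(n))^{F_∞ = 1}`. The Beilinson
regulator is a natural map `A^n(N) → B^n(N)`. For `n = j` and `N = h(X)` this is the map
`reg_ℝ ⊗ ℝ : K_j(X)^{(j)}_ℤ ⊗ ℝ → H^{j-1}_B(X_ℝ, ℝ(j-1))^{F_∞ = 1}` of part (1) of question Q1.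

For a separated scheme `X` of finite type over `ℚ` let `W(X)` be its weight complex (Gillet, Soulé), a
complex of Chow motives with `W(X) = h(X)` for smooth projective `X`, and
`A^{n,i}(X) = H^i(A^n(W(X)))`, `B^{n,i}(X) = H^i(B^n(W(X)))`. The regulator induces maps
`A^{n,i}(X) → B^{n,i}(X)`; for smooth projective `X` and `i ≠ 0` the groups are zero. `Reg C n X` says
that these maps are isomorphisms for the given `n` and all `i`.

Let `F` be one of the following two families of affine schemes over `ℚ`:

* `IsRankTwo`: the schemes of the `m × n` matrices of rank at most two, whose entries at the places of a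
  set `Z` are zero, and whose entries at the places of a set `N` are one;
* `IsLines`: the sections of the affine cone over the Grassmannian `Gr(2, n)` in its Plücker embedding by
  equations `p_ij = 0`, `(i, j) ∈ Z`, and `p_ij = 1`, `(i, j) ∈ N`.

Let `Coord` be the following family of affine schemes over `ℚ`: the sections of the affine cone over
`Gr(2, n)` by equations `p_ij = 0`, `(i, j) ∈ Z`; their open parts, where `p_ij` is invertible for
`(i, j) ∈ U`; the schemes of the `m × n` matrices of rank at most two with zeros at `Z`. No entry is
prescribed to be one. `Built True Coord X` says that `X` is obtained from these schemes by gluing a closed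
and an open part, finitely often.

**Theorem.** Let `j` and `d` be integers. (0) *With zeros only the conjecture is true.* Assume `Reg C j` for
the affine spaces over `ℚ`; here `A^{j,i}(𝔸^m) = A^{j-m,i}(Spec ℚ)`, and this is Borel's theorem. Then
`Reg C j X` is true for all `X` with `Built True Coord X`, for all `m`, `n`, `Z`, `U`. In particular part
(1) of Q1 is true for the smooth projective `X` of this kind.

*With zeros and ones they decide everything:* (1) Every separated scheme `X` of finite type over `ℚ` has a
finite partition into smooth locally closed subschemes `Y_l`, which are members of the family `F`,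
integral or empty, and such that `Reg C j X` is true if `Reg C j (Y_l)` is true for all `l`. In particular
part (1) of Q1 for `j` and one smooth projective variety `X` follows from this for finitely many smooth
members of the family, which are locally closed subschemes of `X`.

(2) `Reg C j` is true for all separated schemes of finite type over `ℚ` of dimension at most `d` if and
only if it is true for the smooth integral members of the family `F` of dimension at most `d`.

(3) By resolution of singularities, part (1) of question Q1 is true for `j` and all smooth projective `X`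
over `ℚ` of dimension at most `d` if and only if the maps `A^{j,i}(Y) → B^{j,i}(Y)` are isomorphisms for
all `i` and the smooth integral members `Y` of the family `F` of dimension at most `d`.

The weight `j` and the dimension `d` are the same on both sides, and only the localization sequences are
used.
-/

set_option autoImplicit false

open CategoryTheory CategoryTheory.Limits AlgebraicGeometry Pool.Agent.Y116.UV Pool.Agent.Z125.UN
  Pool.Agent.Q193.LT Pool.Agent.Q49.WU Pool.Agent.Y101.Th Pool.Agent.Y691.TU Pool.Agent.H68.RT

universe w

namespace Pool.Agent.Results.MP_4a177b_nt.GrassmannianOfLines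

/-- The regulators of index `n` are isomorphisms. -/
def Reg (C : PairData.{w} ℚ (ℤ × ℤ) ℝ) (n : ℤ) (X : Sch ℚ) : Prop :=
  BijAt C Prod.fst n X

/-- **Beilinson's conjecture for `K_j^{(j)}` and sections of the cones over the Grassmannians of
lines.** See the explanations above. -/
theorem result {C : PairData.{w} ℚ (ℤ × ℤ) ℝ} (hC : HasSequences C shiftI) {F : Sch ℚ → Prop}
    (hF : IsFamily F) (j : ℤ) :
    ((∀ n : ℕ, Reg C j (aff ℚ (MvPolynomial (Fin n) ℚ))) →
      ∀ X, Built True Coord X → Reg C j X) ∧
    (∀ X, FT True X → ∃ (k : ℕ) (Y : Fin k → Sch ℚ) (f : ∀ l, Y l ⟶ X),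
      (∀ l, F (Y l) ∧ SmInt (Y l)) ∧ (∀ l, IsImmersion (f l).left) ∧
      (∀ x : X.left, ∃! l, x ∈ Set.range (f l).left) ∧ ((∀ l, Reg C j (Y l)) → Reg C j X)) ∧
    ∀ d : ℕ,
      ((∀ X, FT True X → topologicalKrullDim X.left ≤ d → Reg C j X) ↔
        ∀ Y, F Y → SmInt Y → topologicalKrullDim Y.left ≤ d → Reg C j Y) ∧
      ((∀ Y, F Y → SmInt Y → topologicalKrullDim Y.left ≤ d → Reg C j Y) →
        ∀ X, SmProj X → topologicalKrullDim X.left ≤ d → Reg C j X) ∧
      (Resolution ℚ →
        ((∀ X, SmProj X → topologicalKrullDim X.left ≤ d → Reg C j X) ↔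
          ∀ Y, F Y → SmInt Y → topologicalKrullDim Y.left ≤ d → Reg C j Y)) := by
  have hδ : ∀ i : ℤ × ℤ, Prod.fst (shiftI i) = Prod.fst i := fun _ => rfl
  have hP : Glue True (Reg C j) := glue_at hC hδ j
  have h2P : TwoOfThree (Reg C j) := two_at hC hδ j
  refine ⟨fun h X hX => cel_built (cel_at hC hδ j h) hX, fun X hX => ?_, fun d => ?_⟩
  · obtain ⟨k, Y, f, h1, h2, h3, h4⟩ :=
      partition_good (sep := True) frac_rat hF.family generic_smInt X hX
    exact ⟨k, Y, f, h1, h2, h3, fun h => h4 _ hP h⟩
  · have h1 := good_iff (sep := True) frac_rat hP (her_dim (R := ℚ) (d : WithBot ℕ∞)) hF.family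
      generic_smInt
    refine ⟨h1, fun h X hX hd => h1.mpr h X hX.ft hd, fun hres => ⟨fun h => ?_, fun h X hX hd =>
      h1.mpr h X hX.ft hd⟩⟩
    exact h1.mp (dev_smproj hres h2P d h)

end Pool.Agent.Results.MP_4a177b_nt.GrassmannianOfLines
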