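import Pool.Agent.H81.RZ.Kr
import Pool.Agent.H51.KG.Low
import Pool.Agent.H55.TH.Ksm
import Pool.Graph.R_pool_sql_team_seeded_2aa45f1a.Q49.WU.Pair

/-!
# The Beilinson regulators and the Kirchhoff polynomials of graphs of maximal degree three

Fix an integer `j ≥ 2`. For a Chow motive `N` over `ℚ` and an integer `n` let
`A^n(N) = K_j(N)^{(n)}_ℤ ⊗ ℝ`, the integral part (Scholl, functorial in Chow motives) of the motivic
cohomology `H^{2n-j}_M(N, ℚ(n)) = K_j(N)^{(n)}`, and `B^n(N) = H^{2n-j}_D(N_ℝ, ℝ(n))^{F_∞ = 1}`. The
Beilinson regulator is a natural map `A^n(N) → B^n(N)`. For `n = j` and `N = h(X)` this is the map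
`reg_ℝ ⊗ ℝ : K_j(X)^{(j)}_ℤ ⊗ ℝ → H^{j-1}_B(X_ℝ, ℝ(j-1))^{F_∞ = 1}` of part (1) of question Q1.

For a separated scheme `X` of finite type over `ℚ` let `W(X)` be its weight complex (Gillet, Soulé), a
complex of Chow motives with `W(X) = h(X)` for smooth projective `X`, and
`A^{n,i}(X) = H^i(A^n(W(X)))`, `B^{n,i}(X) = H^i(B^n(W(X)))`. The regulator induces maps
`A^{n,i}(X) → B^{n,i}(X)`; for smooth projective `X` and `i ≠ 0` the groups are zero. `BijAll C X` says
that these maps are isomorphisms for all `n` and all `i`.

The Kirchhoff polynomial of a finite graph `G` is `Ψ_G = ∑_T ∏_{e ∈ T} x_e`, the sum over the spanning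
trees of `G`. All graphs are simple. A graph is split, if its vertices are the disjoint union of an
independent set and a clique.

**Theorem.** The regulators of `K_j` of all weights are isomorphisms for all smooth projective schemes
over `ℚ` if and only if the maps `A^{n,i}(X) → B^{n,i}(X)` are isomorphisms for the hypersurfaces
`X : Ψ_G = 0` of all graphs `G` whose vertices have at most three neighbours, and if and only if they are
isomorphisms for the smooth affine varieties `X : Ψ_G ≠ 0` of all these graphs; the same for all split
graphs. So part (1) of Q1 for `j` is true if it is true for the weight complexes of these hypersurfaces.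

The bound three is optimal: the maps `A^{n,i}(X) → B^{n,i}(X)` are isomorphisms for `X : Ψ_G = 0` and for
`X : Ψ_G ≠ 0`, if the vertices of `G` have at most two neighbours (unconditionally). The same is
true for the split graphs whose independent set has at most two vertices or whose clique has at most three
vertices, for instance for all complete graphs.

The universality for all graphs (for classes in a localised Grothendieck ring) is a theorem of Belkale and
Brosnan, whose graphs have vertices of arbitrarily large degree. The degrees are made small as follows. Let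
`v` be a vertex of `G` with at least four neighbours, and let `G'` be the graph in which `v` is
split into a vertex with two of the neighbours and a vertex with the others, joined by a new edge `e`, and
`G''` the graph in which `e` is subdivided. With `A = Ψ_G` and `B = Ψ_{G' - e}` we have `Ψ_{G'} = A x + B` and
`Ψ_{G''} = A x y + B (x + y)`. So `{Ψ_{G'} ≠ 0}` consists of `{B ≠ 0}` and of `{A + B s ≠ 0, s ≠ 0}`, and
`{Ψ_{G''} ≠ 0}` of two copies of `{B ≠ 0} × 𝔾_m` and of `{A + B (s + t) ≠ 0, s ≠ 0, t ≠ 0}`. The last
one together with `{A + B s ≠ 0, s ≠ 0}` (for `t = 0`) is `{A + B s ≠ 0} × 𝔾_m`, and `{A + B s ≠ 0}`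
consists of `{A + B s ≠ 0, s ≠ 0}` and of `{A ≠ 0}`, the complement of `Ψ_G = 0`. The graphs `G'`, `G''` and
`G' - e` have a smaller sum of the numbers `deg - 3`, `deg > 3`.
-/

set_option autoImplicit false

open CategoryTheory CategoryTheory.Limits AlgebraicGeometry Pool.Agent.Y116.UV Pool.Agent.Z125.UN
  Pool.Agent.Q193.LT Pool.Agent.Q49.WU Pool.Agent.H81.RZ Pool.Agent.H51.KG
  Pool.Agent.H55.TH

universe w

namespace Pool.Agent.Results.MP_4a177b_nt.KirchhoffHypersurfaces

/-- The regulators of index `n` are isomorphisms. -/
def Reg (C : PairData.{w} ℚ (ℤ × ℤ) ℝ) (n : ℤ) (X : Sch ℚ) : Prop :=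
  BijAt C Prod.fst n X

/-- **The Beilinson regulators and the Kirchhoff polynomials of graphs.** See the explanations
above; `point` is the known case of `Spec ℚ` (Borel): the regulator of `K_j(ℚ)^{(n)}_ℤ` is an isomorphism
for all `n`, if `j ≥ 2`. The converse uses that smooth projective schemes generate (`GenAt`). -/
theorem result {C : PairData.{w} ℚ (ℤ × ℤ) ℝ} (hC : IsWeightPair C)
    (point : BijAll C (aff ℚ ℚ)) :
    -- graphs whose vertices have at most three neighbours
    (OnDegree 3 (BijAll C) ↔ OnAll True (BijAll C)) ∧
    (OffDegree 3 (BijAll C) ↔ OnAll True (BijAll C)) ∧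
    -- unconditionally: at most two neighbours, and split graphs with a small part
    OnDegree 2 (BijAll C) ∧ OffDegree 2 (BijAll C) ∧ OnSmallKirchhoff (BijAll C) ∧
    -- split graphs
    (OnKirchhoff (BijAll C) ↔ OnAll True (BijAll C)) ∧
    (OffKirchhoff (BijAll C) ↔ OnAll True (BijAll C)) ∧
    -- smooth projective varieties
    (OnAll True (BijAll C) → ∀ (n : ℤ) (Y : Sch ℚ), SmoothProj Y → Reg C n Y) ∧
    (GenAt C Prod.fst → (∀ (n : ℤ) (Y : Sch ℚ), SmoothProj Y → Reg C n Y) →
      OnAll True (BijAll C)) := by
  have hP := bnd_pair hC point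
  exact ⟨(all_onDegree_iff frac_rat hP).symm, (all_offDegree_iff frac_rat hP).symm,
    on_two hP.toUni, off_two hP.toUni, small_of_bnd hP point,
    (all_kirchhoff_iff frac_rat hP).symm, (all_offKirchhoff_iff frac_rat hP).symm,
    fun h n Y hY j _ => h Y hY.ft j, fun hg h X hX j => hg j.1 (h j.1) X hX j rfl⟩

end Pool.Agent.Results.MP_4a177b_nt.KirchhoffHypersurfaces
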