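import Pool.Agent.H81.RZ.At
import Pool.Agent.H55.TH.Rank
import Pool.Agent.H51.TH.Spaces

/-!
# Beilinson's conjecture for `K_j^{(j)}`, one `j` at a time, and matrices of rank at most two and three

For a Chow motive `N` over `ℚ` and integers `j ≥ 2` and `n` let `A^n(N) = K_j(N)^{(n)}_ℤ ⊗ ℝ`, the
integral part (Scholl, functorial in Chow motives) of the motivic cohomology
`H^{2n-j}_M(N, ℚ(n)) = K_j(N)^{(n)}`, and `B^n(N) = H^{2n-j}_D(N_ℝ, ℝ(n))^{F_∞ = 1}`. The Beilinson
regulator is a natural map `A^n(N) → B^n(N)`. For `n = j` and `N = h(X)` this is the map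
`reg_ℝ ⊗ ℝ : K_j(X)^{(j)}_ℤ ⊗ ℝ → H^{j-1}_B(X_ℝ, ℝ(j-1))^{F_∞ = 1}` of part (1) of question Q1.

For a separated scheme `X` of finite type over `ℚ` let `W(X)` be its weight complex (Gillet, Soulé), a
complex of Chow motives with `W(X) = h(X)` for smooth projective `X`, and
`A^{n,i}(X) = H^i(A^n(W(X)))`, `B^{n,i}(X) = H^i(B^n(W(X)))`. The regulator induces maps
`A^{n,i}(X) → B^{n,i}(X)`; for smooth projective `X` and `i ≠ 0` the groups are zero. `Reg C n X` says
that these maps are isomorphisms for the given `n` and all `i`.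

For `r ∈ ℕ` consider the affine schemes over `ℚ` of the `m × n` matrices of rank at most `r` whose entries
at the places of a set `Z` are zero, for all `m`, `n` and `Z` (the equations are the minors with `r + 1`
rows and the entries at the places in `Z`).

**Theorem.** Let `j ≥ 2`. (1) The maps `A^{n,i}(X) → B^{n,i}(X)` are isomorphisms for all `n` and `i` and all
schemes `X` of matrices of rank at most two with prescribed zeros. (2) Let `r ≥ 3`, for instance `r = 3`.
Part (1) of question Q1 is true for this `j` and all smooth projective `X` over `ℚ` if and only if the maps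
`A^{j,i}(X) → B^{j,i}(X)` are isomorphisms for all `i` and all the schemes `X` of matrices of rank at most
`r` with prescribed zeros. Only the weight `j` of the question is used in (2), on both sides; `j` and `r`
are fixed.

(1) uses the theorem of Borel for `Spec ℚ`, which is not used for (2). It is proved by cutting
along the entries and the `2 × 2` minors: the parts are configurations of vectors in the plane with
prescribed parallel pairs, and these are built one coordinate at a time
(`Pool.Agent.H55.TH.elim_add`).
-/

set_option autoImplicit false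

open CategoryTheory CategoryTheory.Limits AlgebraicGeometry Pool.Agent.Y116.UV Pool.Agent.Z125.UN
  Pool.Agent.Q193.LT Pool.Agent.Q49.WU Pool.Agent.H81.RZ

universe w

namespace Pool.Agent.Results.MP_4a177b_nt.RankThreeMatrices

/-- The regulators of index `n` are isomorphisms. -/
def Reg (C : PairData.{w} ℚ (ℤ × ℤ) ℝ) (n : ℤ) (X : Sch ℚ) : Prop :=
  BijAt C Prod.fst n X

/-- **Beilinson's conjecture for `K_j^{(j)}` and matrices of rank at most `r` with prescribed zeros.** See
the explanations above; the hypothesis of (1) is the known case of `Spec ℚ` (Borel): the regulator of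
`K_j(ℚ)^{(n)}_ℤ` is an isomorphism for all `n`, if `j ≥ 2`. The converse uses that smooth projective schemes generate
(`GenAt`). -/
theorem result {C : PairData.{w} ℚ (ℤ × ℤ) ℝ} (hC : IsWeightPair C) :
    (BijAll C (aff ℚ ℚ) → ∀ r : ℕ, r ≤ 2 → ∀ n : ℤ, OnRank r (Reg C n)) ∧
    ∀ (j : ℤ) (r : ℕ), 3 ≤ r →
      (OnRank r (Reg C j) ↔ OnAll True (Reg C j)) ∧
      (OnRank r (Reg C j) → ∀ Y : Sch ℚ, SmoothProj Y → Reg C j Y) ∧
      (GenAt C Prod.fst → (∀ Y : Sch ℚ, SmoothProj Y → Reg C j Y) → OnRank r (Reg C j)) := by
  refine ⟨fun point r h2 n => Pool.Agent.H55.TH.on_rank (clo_at hC graded_weight n)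
    (fun m j _ => Pool.Agent.H51.TH.spaces_bnd (bnd_pair hC point) point m j) h2, fun j r hr => ?_⟩
  have h1 : OnAll True (Reg C j) ↔ OnRank r (Reg C j) :=
    clo_rk frac_rat (clo_at hC graded_weight j) hr
  exact ⟨h1.symm, fun h Y hY => h1.mpr h Y hY.ft, fun hg h => h1.mp (hg j h)⟩

end Pool.Agent.Results.MP_4a177b_nt.RankThreeMatrices
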