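import Pool.Agent.H81.RZ.Cell2
import Pool.Agent.H81.RZ.At
import Pool.Agent.H55.TH.Thin
import Pool.Agent.H51.TH.Spaces

/-!
# Beilinson's conjecture for `K_j^{(j)}`, one `j` at a time, and thin Schubert cells of lines and planes

For a Chow motive `N` over `ℚ` and integers `j ≥ 2` and `n` let `A^n(N) = K_j(N)^{(n)}_ℤ ⊗ ℝ`, the
integral part (Scholl, functorial in Chow motives) of the motivic cohomology
`H^{2n-j}_M(N, ℚ(n)) = K_j(N)^{(n)}`, and `B^n(N) = H^{2n-j}_D(N_ℝ, ℝ(n))^{F_∞ = 1}`. The Beilinson
regulator is a natural map `A^n(N) → B^n(N)`. For `n = j` and `N = h(X)` this is the map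
`reg_ℝ ⊗ ℝ : K_j(X)^{(j)}_ℤ ⊗ ℝ → H^{j-1}_B(X_ℝ, ℝ(j-1))^{F_∞ = 1}` of part (1) of question Q1.

For a separated scheme `X` of finite type over `ℚ` let `W(X)` be its weight complex (Gillet, Soulé), a
complex of Chow motives with `W(X) = h(X)` for smooth projective `X`, and
`A^{n,i}(X) = H^i(A^n(W(X)))`, `B^{n,i}(X) = H^i(B^n(W(X)))`. The regulator induces maps
`A^{n,i}(X) → B^{n,i}(X)`; for smooth projective `X` and `i ≠ 0` the groups are zero. `Reg C n X` says
that these maps are isomorphisms for the given `n` and all `i`.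

The thin Schubert cell of a set `B` of three-element subsets of the set of columns consists of the
matrices `(1 | A)` with three rows over `ℚ`, whose maximal minors with the columns in `B` are different
from zero, while all the other maximal minors are zero. It is a stratum of the Grassmannian `Gr(3, 3 + n)`
in its stratification by the matroids of the subspaces (Gelfand, Goresky, MacPherson, Serganova), and it
is empty if `B` is not the set of bases of a matroid.

`Thinr ℚ 2 B` is the same for the matrices `(1 | A)` with two rows, and the Grassmannians `Gr(2, 2 + n)`.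

**Theorem.** Let `j ≥ 2`. (1) The maps `A^{n,i}(X) → B^{n,i}(X)` are isomorphisms for all `n` and `i` and all
thin Schubert cells `X` of the Grassmannians `Gr(2, 2 + m)`. (2) Part (1) of question Q1 is true for this
`j` and all smooth projective `X` over `ℚ` if and only if the maps `A^{j,i}(X) → B^{j,i}(X)` are
isomorphisms for all `i` and all thin Schubert cells `X` of the Grassmannians `Gr(3, 3 + m)`. Only the
weight `j` of the question is used in (2), on both sides. (1) uses the theorem of Borel for `Spec ℚ`,
which is not used for (2).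
-/

set_option autoImplicit false

open CategoryTheory CategoryTheory.Limits AlgebraicGeometry Pool.Agent.Y116.UV Pool.Agent.Z125.UN
  Pool.Agent.Q193.LT Pool.Agent.Q49.WU Pool.Agent.H81.RZ Pool.Agent.H55.TH

universe w

namespace Pool.Agent.Results.MP_4a177b_nt.ThinSchubertCells

/-- The regulators of index `n` are isomorphisms. -/
def Reg (C : PairData.{w} ℚ (ℤ × ℤ) ℝ) (n : ℤ) (X : Sch ℚ) : Prop :=
  BijAt C Prod.fst n X

/-- **Beilinson's conjecture for `K_j^{(j)}` and thin Schubert cells: `Gr(2, 2 + m)` and `Gr(3, 3 + m)`.**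
See the explanations above; the hypothesis of (1) is the known case of `Spec ℚ` (Borel): the regulator
of `K_j(ℚ)^{(n)}_ℤ` is an isomorphism for all `n`, if `j ≥ 2`. The converse uses that smooth projective
schemes generate (`GenAt`). -/
theorem result {C : PairData.{w} ℚ (ℤ × ℤ) ℝ} (hC : IsWeightPair C) :
    (BijAll C (aff ℚ ℚ) → ∀ n : ℤ, OnThinr 2 (Reg C n)) ∧
    ∀ j : ℤ,
      (OnThin (Reg C j) ↔ OnAll True (Reg C j)) ∧
      (OnThin (Reg C j) → ∀ Y : Sch ℚ, SmoothProj Y → Reg C j Y) ∧
      (GenAt C Prod.fst → (∀ Y : Sch ℚ, SmoothProj Y → Reg C j Y) → OnThin (Reg C j)) := by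
  refine ⟨fun point n => on_thin (clo_at hC graded_weight n)
    (fun m j _ => Pool.Agent.H51.TH.spaces_bnd (bnd_pair hC point) point m j), fun j => ?_⟩
  have h1 : OnAll True (Reg C j) ↔ OnThin (Reg C j) :=
    clo_thin frac_rat (clo_at hC graded_weight j)
  exact ⟨h1.symm, fun h Y hY => h1.mpr h Y hY.ft, fun hg h => h1.mp (hg j h)⟩

end Pool.Agent.Results.MP_4a177b_nt.ThinSchubertCells
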